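import Pool.Agent.Helper84.FX.StT

set_option autoImplicit false

/-!
# Project FX, module CN3 (helper8): cancellation of the first map
-/

namespace Pool.Agent.Helper8.FX

open Set Pool.Agent.Helper84.FX

private theorem bd_sub (n : ℕ) : Bd n ⊆ Cb n := fun _ hu => hu.1

private theorem mp_comp {E F G : Type} [TopologicalSpace E] [TopologicalSpace F]
    [TopologicalSpace G] {A : Set E} {B : Set F} {C : Set G} {f : E → F} {g : F → G}
    (hf : Mp A B f) (hg : Mp B C g) : Mp A C (g ∘ f) :=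
  ⟨hg.1.comp hf.1 hf.2, hg.2.comp hf.2⟩

theorem hCN3 : StLFT → StBCX → StWEP → StHEP → StCCT → StCN3 := by
  intro hLFT hBCX hWEP hHEP hCCT
  intro E F G _ _ _ _ X Y Z f g hg hf hgf
  refine ⟨hg, ?_⟩
  intro n a b ha hb hab
  obtain ⟨C, D, -, hD, -, -, hsD⟩ := hBCX n
  have hemp : spt (∅ : Finset (Cel n)) = ∅ := by
    ext u
    simp [spt]
  have hprod : (II ×ˢ spt (∅ : Finset (Cel n)) : Set (ℝ × (Fin n → ℝ))) = ∅ := by
    rw [hemp, prod_empty]
  obtain ⟨c0, A, hc0, -, hA, hA0, hA1, -⟩ := hLFT E F X Y f hf n D ∅ hD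
    (by intro c hc; exact absurd hc (Finset.notMem_empty c)) (Finset.empty_subset D)
    (fun _ => Classical.arbitrary E) a (fun q => a q.2)
    (by rw [hemp]; exact ⟨continuousOn_empty _, mapsTo_empty _ _⟩)
    (by rw [hsD]; exact ha)
    (by rw [hprod]; exact ⟨continuousOn_empty _, mapsTo_empty _ _⟩)
    (by intro u hu; rfl)
    (by intro u hu; rw [hemp] at hu; exact absurd hu (notMem_empty u))
  rw [hsD] at hc0 hA hA0 hA1
  obtain ⟨c, P, hc, hcc0, hP, hP0, hP1, hPb⟩ := hWEP E G X Z (g ∘ f) hgf n c0 b (g ∘ A) hc0 hb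
    (mp_comp hA hg)
    (by intro u hu; rw [Function.comp_apply, hA0 u hu, hab u hu])
    (by intro u hu; rw [Function.comp_apply, Function.comp_apply, hA1 u hu])
  have hfc : Mp (Cb n) Y (f ∘ c) := mp_comp hc hf.1
  obtain ⟨A', hA', hA'1, hA'b⟩ := (hHEP F Y n (f ∘ c) A hfc hA).2
    (by intro u hu; rw [hA1 u hu, Function.comp_apply, hcc0 u hu])
  have h0 : (0 : ℝ) ∈ II := ⟨le_rfl, zero_le_one⟩
  have h1 : (1 : ℝ) ∈ II := ⟨zero_le_one, le_rfl⟩
  have hflip : ∀ s : ℝ, s ∈ II → 1 - s ∈ II := by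
    intro s hs
    exact ⟨by linarith [hs.2], by linarith [hs.1]⟩
  have hslice : Mp (Cb n) (II ×ˢ Cb n) (fun u : Fin n → ℝ => ((0 : ℝ), u)) :=
    ⟨(continuous_const.prodMk continuous_id).continuousOn, fun u hu => ⟨h0, hu⟩⟩
  have hrev : Mp (II ×ˢ Cb n) (II ×ˢ Cb n)
      (fun q : ℝ × (Fin n → ℝ) => ((1 : ℝ) - q.1, q.2)) :=
    ⟨((continuous_const.sub continuous_fst).prodMk continuous_snd).continuousOn,
      fun q hq => ⟨hflip q.1 hq.1, hq.2⟩⟩
  have he : Mp (Cb n) Y (fun u => A' (0, u)) := mp_comp hslice hA'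
  have hR : Mp (II ×ˢ Cb n) Z (fun q : ℝ × (Fin n → ℝ) => g (A' (1 - q.1, q.2))) :=
    mp_comp (mp_comp hrev hA') hg
  obtain ⟨H, hH, hH0, hH1, hHb⟩ := (hCCT G Z n P (fun q => g (A' (1 - q.1, q.2))) (g ∘ A) hP hR
    (by
      intro u hu
      change P (1, u) = g (A' (1 - 0, u))
      rw [hP1 u hu, sub_zero, hA'1 u hu]
      rfl)
    (by intro s hs u hu; exact hPb s hs u hu)).2
    (by
      intro s hs u hu
      change g (A' (1 - s, u)) = g (A (1 - s, u))
      rw [hA'b (1 - s) (hflip s hs) u hu])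
  refine ⟨fun u => A' (0, u), H, he, ?_, hH, ?_, ?_, ?_⟩
  · intro u hu
    change A' (0, u) = a u
    rw [hA'b 0 h0 u hu, hA0 u hu]
  · intro u hu
    rw [hH0 u hu, hP0 u hu]
  · intro u hu
    rw [hH1 u hu]
    change g (A' (1 - 1, u)) = g (A' (0, u))
    rw [sub_self]
  · intro s hs u hu
    rw [hHb s hs u hu, Function.comp_apply, hA0 u hu, hab u hu]

end Pool.Agent.Helper8.FX
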