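import Pool.Agent.Helper84.FX.StX

set_option autoImplicit false

/-!
# Project FX, module T5A (helper8): the cylinder over `W_G`
-/

namespace Pool.Agent.Helper8.FX

open Set Pool.Agent.Helper84.FX Pool.Agent.Helper72.FX

theorem hT5A : StGL → StTDM → StTWG → StTNG → StA0 → StA1 → StDMP → StT5A := by
  intro hGL hTDM hTWG hTNG hA0 hA1 hDMP U hU
  have hUo : IsOpen U := hU.1
  have h0 : (0 : ℂ) ∉ U := by
    intro h
    obtain ⟨s, -, hs⟩ := hU.2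
    exact (hs 0 h).2 rfl
  obtain ⟨t1, t2, t12⟩ := hTNG U hUo h0
  have hcont : ContinuousOn (fun z : Fin 10 → ℂ => z 5) (N1G U ∪ N2G U) :=
    (continuous_apply 5).continuousOn
  have hT : Tame (DM (N1G U) (N2G U)) (fun q : (Fin 10 → ℂ) × ℝ => q.1 5) :=
    hTDM (Fin 10 → ℂ) ℂ (N1G U) (N2G U) (fun z => z 5) t1 t2 t12 hcont
  exact hGL ((Fin 10 → ℂ) × ℝ) (Fin 10 → ℂ) ℂ (DM (N1G U) (N2G U)) (WG U) Prod.fst (fun z => z 5)
    (hDMP U).2 (hTWG U hUo h0) hT (hA0 U h0) (hA1 U hU)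

end Pool.Agent.Helper8.FX
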